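import Mathlib

/-! Counting the points of a planar lattice in a square box with the help of a shortest vector. -/

set_option autoImplicit false

namespace Pool.Agent.N36.EX

open Finset
open scoped Classical

/-- A finite set of integers with bounded differences. -/
theorem card_int_le (S : Finset ℤ) (R : ℝ) (hR : 0 ≤ R)
    (h : ∀ i ∈ S, ∀ j ∈ S, |((i : ℤ) : ℝ) - j| ≤ R) : (S.card : ℝ) ≤ 1 + R := by
  rcases S.eq_empty_or_nonempty with rfl | hne
  · simp; linarith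
  have hsub : S ⊆ Finset.Icc (S.min' hne) (S.max' hne) := fun i hi =>
    Finset.mem_Icc.2 ⟨S.min'_le i hi, S.le_max' i hi⟩
  have h1 := Finset.card_le_card hsub
  rw [Int.card_Icc] at h1
  have h2 := h _ (S.max'_mem hne) _ (S.min'_mem hne)
  have h3 : S.min' hne ≤ S.max' hne := S.min'_le_max' hne
  have h4 : ((S.max' hne + 1 - S.min' hne).toNat : ℤ) = S.max' hne + 1 - S.min' hne :=
    Int.toNat_of_nonneg (by linarith)
  have h5 : (S.card : ℤ) ≤ S.max' hne + 1 - S.min' hne := by rw [← h4]; exact_mod_cast h1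
  have h6 : (S.card : ℝ) ≤ (S.max' hne : ℝ) + 1 - (S.min' hne : ℝ) := by exact_mod_cast h5
  have h7 := le_abs_self ((S.max' hne : ℝ) - (S.min' hne : ℝ))
  linarith

section

variable (p1 p2 q1 q2 : ℝ)

/-- first coordinate -/
def ff (v : ℤ × ℤ) : ℝ := v.1 * p1 + v.2 * p2

/-- the sup norm -/
noncomputable def MM (v : ℤ × ℤ) : ℝ := max |ff p1 p2 v| |ff q1 q2 v|

theorem box_finite (hd : p1 * q2 - p2 * q1 ≠ 0) (T : ℝ) :
    {v : ℤ × ℤ | |ff p1 p2 v| ≤ T ∧ |ff q1 q2 v| ≤ T}.Finite := by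
  obtain ⟨N, hN⟩ := exists_nat_gt ((|T| * (|q1| + |q2| + |p1| + |p2|)) / |p1 * q2 - p2 * q1|)
  refine ((Set.finite_Icc (-(N : ℤ)) N).prod (Set.finite_Icc (-(N : ℤ)) N)).subset ?_
  rintro ⟨m, n⟩ ⟨h1, h2⟩
  have hd0 : 0 < |p1 * q2 - p2 * q1| := abs_pos.2 hd
  rw [div_lt_iff₀ hd0] at hN
  have hT : T ≤ |T| := le_abs_self T
  have h1' : |ff p1 p2 (m, n)| ≤ |T| := h1.trans hT
  have h2' : |ff q1 q2 (m, n)| ≤ |T| := h2.trans hT
  have e1 : (m : ℝ) * (p1 * q2 - p2 * q1) = ff p1 p2 (m, n) * q2 - ff q1 q2 (m, n) * p2 := by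
    simp only [ff]; ring
  have e2 : (n : ℝ) * (p1 * q2 - p2 * q1) = ff q1 q2 (m, n) * p1 - ff p1 p2 (m, n) * q1 := by
    simp only [ff]; ring
  have b1 : |(m : ℝ)| * |p1 * q2 - p2 * q1| ≤ |T| * (|q1| + |q2| + |p1| + |p2|) := by
    rw [← abs_mul, e1]
    calc |ff p1 p2 (m, n) * q2 - ff q1 q2 (m, n) * p2|
        ≤ |ff p1 p2 (m, n) * q2| + |ff q1 q2 (m, n) * p2| := abs_sub _ _
      _ = |ff p1 p2 (m, n)| * |q2| + |ff q1 q2 (m, n)| * |p2| := by rw [abs_mul, abs_mul]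
      _ ≤ |T| * |q2| + |T| * |p2| := by gcongr
      _ ≤ |T| * (|q1| + |q2| + |p1| + |p2|) := by
        have := mul_nonneg (abs_nonneg T) (abs_nonneg q1)
        have := mul_nonneg (abs_nonneg T) (abs_nonneg p1)
        nlinarith
  have b2 : |(n : ℝ)| * |p1 * q2 - p2 * q1| ≤ |T| * (|q1| + |q2| + |p1| + |p2|) := by
    rw [← abs_mul, e2]
    calc |ff q1 q2 (m, n) * p1 - ff p1 p2 (m, n) * q1|
        ≤ |ff q1 q2 (m, n) * p1| + |ff p1 p2 (m, n) * q1| := abs_sub _ _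
      _ = |ff q1 q2 (m, n)| * |p1| + |ff p1 p2 (m, n)| * |q1| := by rw [abs_mul, abs_mul]
      _ ≤ |T| * |p1| + |T| * |q1| := by gcongr
      _ ≤ |T| * (|q1| + |q2| + |p1| + |p2|) := by
        have := mul_nonneg (abs_nonneg T) (abs_nonneg q2)
        have := mul_nonneg (abs_nonneg T) (abs_nonneg p2)
        nlinarith
  have c1 : |(m : ℝ)| < N := lt_of_mul_lt_mul_right (lt_of_le_of_lt b1 hN) hd0.le
  have c2 : |(n : ℝ)| < N := lt_of_mul_lt_mul_right (lt_of_le_of_lt b2 hN) hd0.le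
  rw [abs_lt] at c1 c2
  refine Set.mk_mem_prod ?_ ?_
  · exact ⟨by exact_mod_cast c1.1.le, by exact_mod_cast c1.2.le⟩
  · exact ⟨by exact_mod_cast c2.1.le, by exact_mod_cast c2.2.le⟩

/-- The number of lattice points in a box. -/
theorem box_card (hd : p1 * q2 - p2 * q1 ≠ 0) (T : ℝ) (u : ℤ × ℤ) (hu : u ≠ 0)
    (hu2 : MM p1 p2 q1 q2 u ≤ T) : ∃ v : ℤ × ℤ, v ≠ 0 ∧
      MM p1 p2 q1 q2 v ≤ MM p1 p2 q1 q2 u ∧ 0 < MM p1 p2 q1 q2 v ∧
      ((box_finite p1 p2 q1 q2 hd T).toFinset.card : ℝ) ≤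
        (1 + 2 * T / MM p1 p2 q1 q2 v) *
          (1 + 4 * MM p1 p2 q1 q2 v * T / |p1 * q2 - p2 * q1|) := by
  set S := (box_finite p1 p2 q1 q2 hd T).toFinset with hS
  have hmem : ∀ v, v ∈ S ↔ MM p1 p2 q1 q2 v ≤ T := by
    intro v
    rw [hS, Set.Finite.mem_toFinset]
    simp only [Set.mem_setOf_eq, MM, max_le_iff]
  have hpos : ∀ v : ℤ × ℤ, v ≠ 0 → 0 < MM p1 p2 q1 q2 v := by
    intro v hv
    by_contra hcon
    have h0 : MM p1 p2 q1 q2 v ≤ 0 := not_lt.1 hcon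
    rw [MM, max_le_iff] at h0
    have h1 : ff p1 p2 v = 0 := abs_nonpos_iff.1 h0.1
    have h2 : ff q1 q2 v = 0 := abs_nonpos_iff.1 h0.2
    simp only [ff] at h1 h2
    have e1 : (v.1 : ℝ) * (p1 * q2 - p2 * q1) = 0 := by linear_combination q2 * h1 - p2 * h2
    have e2 : (v.2 : ℝ) * (p1 * q2 - p2 * q1) = 0 := by linear_combination p1 * h2 - q1 * h1
    have e3 : (v.1 : ℝ) = 0 := (mul_eq_zero.1 e1).resolve_right hd
    have e4 : (v.2 : ℝ) = 0 := (mul_eq_zero.1 e2).resolve_right hd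
    apply hv
    ext
    · exact_mod_cast e3
    · exact_mod_cast e4
  obtain ⟨v0, hv0, hmin⟩ := Finset.exists_min_image (S.filter (fun v => v ≠ 0))
    (MM p1 p2 q1 q2) ⟨u, Finset.mem_filter.2 ⟨(hmem u).2 hu2, hu⟩⟩
  rw [Finset.mem_filter] at hv0
  have hμ0 := hpos v0 hv0.2
  have hμu : MM p1 p2 q1 q2 v0 ≤ MM p1 p2 q1 q2 u :=
    hmin u (Finset.mem_filter.2 ⟨(hmem u).2 hu2, hu⟩)
  refine ⟨v0, hv0.2, hμu, hμ0, ?_⟩
  obtain ⟨a, b⟩ := v0
  set μ := MM p1 p2 q1 q2 (a, b) with hμ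
  have hT0 : 0 < T := lt_of_lt_of_le hμ0 ((hmem _).1 hv0.1)
  -- homogeneity
  have hhom : ∀ (j : ℤ) (v : ℤ × ℤ), MM p1 p2 q1 q2 (j * v.1, j * v.2) =
      |(j : ℝ)| * MM p1 p2 q1 q2 v := by
    intro j v
    have e1 : ff p1 p2 (j * v.1, j * v.2) = j * ff p1 p2 v := by
      simp only [ff]; push_cast; ring
    have e2 : ff q1 q2 (j * v.1, j * v.2) = j * ff q1 q2 v := by
      simp only [ff]; push_cast; ring
    rw [MM, MM, e1, e2, abs_mul, abs_mul, mul_max_of_nonneg _ _ (abs_nonneg _)]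
  -- primitivity
  have hcop : IsCoprime a b := by
    rw [Int.isCoprime_iff_gcd_eq_one]
    by_contra hg
    have hg0 : Int.gcd a b ≠ 0 := by
      intro h
      rw [Int.gcd_eq_zero_iff] at h
      exact hv0.2 (by ext <;> simp [h.1, h.2])
    have hg2 : 2 ≤ Int.gcd a b := by omega
    obtain ⟨a', ha'⟩ := Int.gcd_dvd_left (a := a) (b := b)
    obtain ⟨b', hb'⟩ := Int.gcd_dvd_right (a := a) (b := b)
    have hne : ((a', b') : ℤ × ℤ) ≠ 0 := by
      intro h
      have h1 : a' = 0 := congrArg Prod.fst h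
      have h2 : b' = 0 := congrArg Prod.snd h
      apply hv0.2
      ext
      · simp only [Prod.fst_zero]; rw [ha', h1, mul_zero]
      · simp only [Prod.snd_zero]; rw [hb', h2, mul_zero]
    have h1 := hhom (Int.gcd a b : ℤ) (a', b')
    have h2 : (((Int.gcd a b : ℤ) * a', (Int.gcd a b : ℤ) * b') : ℤ × ℤ) = (a, b) := by
      rw [← ha', ← hb']
    simp only at h1
    rw [h2, ← hμ] at h1
    have h3 := hpos _ hne
    have h4 : (2 : ℝ) ≤ |((Int.gcd a b : ℤ) : ℝ)| := by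
      rw [abs_of_nonneg (by positivity)]
      exact_mod_cast hg2
    have h5 : MM p1 p2 q1 q2 (a', b') < μ := by
      rw [h1]
      nlinarith
    have h6 := hmin (a', b') (Finset.mem_filter.2 ⟨(hmem _).2
      (h5.le.trans (hμu.trans hu2)), hne⟩)
    linarith
  obtain ⟨c, d, hcd⟩ := hcop
  -- the differences
  have hsub : ∀ v w : ℤ × ℤ, v ∈ S → w ∈ S → MM p1 p2 q1 q2 (v - w) ≤ 2 * T := by
    intro v w hv hw
    rw [hmem] at hv hw
    rw [MM, max_le_iff] at hv hw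
    have e1 : ff p1 p2 (v - w) = ff p1 p2 v - ff p1 p2 w := by
      simp only [ff, Prod.fst_sub, Prod.snd_sub]; push_cast; ring
    have e2 : ff q1 q2 (v - w) = ff q1 q2 v - ff q1 q2 w := by
      simp only [ff, Prod.fst_sub, Prod.snd_sub]; push_cast; ring
    rw [MM, max_le_iff, e1, e2]
    constructor
    · exact (abs_sub _ _).trans (by linarith [hv.1, hw.1])
    · exact (abs_sub _ _).trans (by linarith [hv.2, hw.2])
  set k : ℤ × ℤ → ℤ := fun v => a * v.2 - b * v.1 with hk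
  have hd0 : 0 < |p1 * q2 - p2 * q1| := abs_pos.2 hd
  have hkS : ∀ v ∈ S, |(k v : ℝ)| ≤ 2 * μ * T / |p1 * q2 - p2 * q1| := by
    intro v hv
    rw [hmem, MM, max_le_iff] at hv
    have hμ1 : |ff p1 p2 (a, b)| ≤ μ := le_max_left _ _
    have hμ2 : |ff q1 q2 (a, b)| ≤ μ := le_max_right _ _
    rw [le_div_iff₀ hd0, ← abs_mul]
    have e1 : (k v : ℝ) * (p1 * q2 - p2 * q1) =
        ff p1 p2 (a, b) * ff q1 q2 v - ff q1 q2 (a, b) * ff p1 p2 v := by
      simp only [hk, ff]; push_cast; ring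
    rw [e1]
    calc |ff p1 p2 (a, b) * ff q1 q2 v - ff q1 q2 (a, b) * ff p1 p2 v|
        ≤ |ff p1 p2 (a, b) * ff q1 q2 v| + |ff q1 q2 (a, b) * ff p1 p2 v| := abs_sub _ _
      _ = |ff p1 p2 (a, b)| * |ff q1 q2 v| + |ff q1 q2 (a, b)| * |ff p1 p2 v| := by
        rw [abs_mul, abs_mul]
      _ ≤ μ * T + μ * T := by
        have := hv.1; have := hv.2
        gcongr
      _ = 2 * μ * T := by ring
  have himg : ((S.image k).card : ℝ) ≤ 1 + 4 * μ * T / |p1 * q2 - p2 * q1| := by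
    refine card_int_le _ _ (by positivity) ?_
    intro i hi j hj
    obtain ⟨v, hv, rfl⟩ := Finset.mem_image.1 hi
    obtain ⟨w, hw, rfl⟩ := Finset.mem_image.1 hj
    refine (abs_sub _ _).trans ?_
    have h1 := hkS v hv
    have h2 := hkS w hw
    have h3 : 4 * μ * T / |p1 * q2 - p2 * q1| =
      2 * μ * T / |p1 * q2 - p2 * q1| + 2 * μ * T / |p1 * q2 - p2 * q1| := by ring
    rw [h3]
    linarith
  -- the fibres
  set l : ℤ × ℤ → ℤ := fun v => c * v.1 + d * v.2 with hl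
  have hfib : ∀ t : ℤ, ((S.filter (fun v => k v = t)).card : ℝ) ≤ 1 + 2 * T / μ := by
    intro t
    have key : ∀ v ∈ S.filter (fun v => k v = t), ∀ w ∈ S.filter (fun v => k v = t),
        v - w = ((l v - l w) * a, (l v - l w) * b) := by
      intro v hv w hw
      rw [Finset.mem_filter] at hv hw
      have h1 : a * v.2 - b * v.1 = a * w.2 - b * w.1 := hv.2.trans hw.2.symm
      ext
      · simp only [hl, Prod.fst_sub]
        linear_combination (-1) * (v.1 - w.1) * hcd - d * h1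
      · simp only [hl, Prod.snd_sub]
        linear_combination (-1) * (v.2 - w.2) * hcd + c * h1
    have hinj : Set.InjOn l (S.filter (fun v => k v = t)) := by
      intro v hv w hw hvw
      have h1 := key v hv w hw
      rw [hvw, sub_self, zero_mul, zero_mul] at h1
      exact sub_eq_zero.1 h1
    rw [← Finset.card_image_of_injOn hinj]
    refine card_int_le _ _ (by positivity) ?_
    intro i hi j hj
    obtain ⟨v, hv, rfl⟩ := Finset.mem_image.1 hi
    obtain ⟨w, hw, rfl⟩ := Finset.mem_image.1 hj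
    have h1 := hsub v w (Finset.mem_filter.1 hv).1 (Finset.mem_filter.1 hw).1
    rw [key v hv w hw, hhom (l v - l w) (a, b), ← hμ] at h1
    rw [le_div_iff₀ hμ0]
    push_cast at h1
    exact h1
  -- conclusion
  have hn : ∀ t ∈ S.image k, (S.filter (fun v => k v = t)).card ≤ ⌊1 + 2 * T / μ⌋₊ := by
    intro t _
    exact Nat.le_floor (hfib t)
  have hfin := Finset.card_le_mul_card_image S ⌊1 + 2 * T / μ⌋₊ hn
  calc (S.card : ℝ) ≤ ((⌊1 + 2 * T / μ⌋₊ * (S.image k).card : ℕ) : ℝ) := by exact_mod_cast hfin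
    _ = (⌊1 + 2 * T / μ⌋₊ : ℝ) * ((S.image k).card : ℝ) := by push_cast; rfl
    _ ≤ (1 + 2 * T / μ) * (1 + 4 * μ * T / |p1 * q2 - p2 * q1|) := by
      gcongr
      exact Nat.floor_le (by positivity)

end

end Pool.Agent.N36.EX
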