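import Pool.Agent.N71.EX.Stm
import Pool.Agent.H38R2.CG.N4a
import Pool.Agent.H38R2.CG.KF
import Pool.Agent.N36.EX.Box

/-! EX/LAT: lattice points (project of helper71). -/

set_option autoImplicit false

namespace Pool.Agent.N36.EX

open Finset Filter NumberField Pool.Agent.H38R2.CG Pool.Agent.N71.EX
open scoped Classical

section

variable {K : Type} [Field K] [NumberField K] {D : ℕ}

theorem inv_iff (A : Ideal (𝓞 K)) (hA : A ≠ ⊥) (x : K) :
    Inv A x ↔ x ∈ ((A : FractionalIdeal (nonZeroDivisors (𝓞 K)) K)⁻¹ :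
      FractionalIdeal (nonZeroDivisors (𝓞 K)) K) := by
  have hA0 : (A : FractionalIdeal (nonZeroDivisors (𝓞 K)) K) ≠ 0 :=
    FractionalIdeal.coeIdeal_ne_zero.2 hA
  constructor
  · rintro ⟨B, hB⟩
    rw [FractionalIdeal.mem_inv_iff hA0]
    intro y hy
    have h1 : x * y ∈ FractionalIdeal.spanSingleton (nonZeroDivisors (𝓞 K)) x *
        (A : FractionalIdeal (nonZeroDivisors (𝓞 K)) K) :=
      FractionalIdeal.mul_mem_mul (FractionalIdeal.mem_spanSingleton_self _ _) hy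
    rw [hB] at h1
    exact (FractionalIdeal.coeIdeal_le_one (I := B)) h1
  · intro hx
    rw [FractionalIdeal.mem_inv_iff hA0] at hx
    have h1 : FractionalIdeal.spanSingleton (nonZeroDivisors (𝓞 K)) x *
        (A : FractionalIdeal (nonZeroDivisors (𝓞 K)) K) ≤ 1 := by
      rw [FractionalIdeal.spanSingleton_mul_le_iff]
      exact hx
    obtain ⟨B, hB⟩ := FractionalIdeal.le_one_iff_exists_coeIdeal.1 h1
    exact ⟨B, hB.symm⟩

theorem phi_le_one (t : ℝ) : phi t ≤ 1 := by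
  unfold phi
  exact max_le zero_le_one (by linarith [abs_nonneg t])

theorem phi_zero {t : ℝ} (h : ¬ |t| ≤ 1) : phi t = 0 := by
  unfold phi
  exact max_eq_left (by linarith [not_le.1 h])

/-- the kernel is at most the number of elements -/
theorem KAB_le (e : Emb K D) (A B : Ideal (𝓞 K)) (S : Finset K)
    (hS : ∀ x ∈ XAB e A B, |Real.log (e.σ x / e.τ x)| ≤ 1 → x ∈ S) :
    KAB e A B ≤ ((S.filter (fun x => x ∈ XAB e A B)).card : ℝ) := by
  have h1 : KAB e A B = ∑ x ∈ S.filter (fun x => x ∈ XAB e A B),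
      phi (Real.log (e.σ x / e.τ x)) := by
    unfold KAB
    refine finsum_mem_eq_sum_of_subset _ ?_ ?_
    · rintro x ⟨hx1, hx2⟩
      rw [Finset.mem_coe, Finset.mem_filter]
      refine ⟨hS x hx1 ?_, hx1⟩
      by_contra hcon
      exact hx2 (phi_zero hcon)
    · intro x hx
      rw [Finset.mem_coe, Finset.mem_filter] at hx
      exact hx.2
  rw [h1]
  calc ∑ x ∈ S.filter (fun x => x ∈ XAB e A B), phi (Real.log (e.σ x / e.τ x))
      ≤ ∑ _x ∈ S.filter (fun x => x ∈ XAB e A B), (1 : ℝ) :=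
        Finset.sum_le_sum (fun x _ => phi_le_one _)
    _ = ((S.filter (fun x => x ∈ XAB e A B)).card : ℝ) := by simp

theorem norm_eq (e : Emb K D) (A B : Ideal (𝓞 K)) (x : K) (hx : x ∈ XAB e A B) :
    e.σ x * e.τ x * (Ideal.absNorm A : ℝ) = (Ideal.absNorm B : ℝ) := by
  obtain ⟨hx1, hx2, hx3⟩ := hx
  have h1 := congrArg FractionalIdeal.absNorm hx3
  rw [map_mul, FractionalIdeal.absNorm_span_singleton, FractionalIdeal.coeIdeal_absNorm,
    FractionalIdeal.coeIdeal_absNorm] at h1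
  have h2 : ((|(Algebra.norm ℚ) x| * (Ideal.absNorm A : ℚ) : ℚ) : ℝ) =
      ((Ideal.absNorm B : ℚ) : ℝ) := by
    rw [h1]
  push_cast at h2
  rw [e.nrm, abs_of_pos (mul_pos hx1 hx2)] at h2
  exact h2

theorem small {s t Z : ℝ} (hs : 0 < s) (ht : 0 < t) (hst : s * t ≤ Z)
    (hl : Real.log (s / t) ≤ 1) : |s| ≤ √(3 * Z) := by
  rw [abs_of_pos hs]
  apply Real.le_sqrt_of_sq_le
  have h1 : s / t ≤ Real.exp 1 := by
    rw [← Real.exp_log (div_pos hs ht)]
    exact Real.exp_le_exp.2 hl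
  rw [div_le_iff₀ ht] at h1
  have h3 : Real.exp 1 < 3 := by
    have := Real.exp_one_lt_d9
    linarith
  have hst0 : 0 < s * t := mul_pos hs ht
  calc s ^ 2 = s * s := sq s
    _ ≤ s * (Real.exp 1 * t) := mul_le_mul_of_nonneg_left h1 hs.le
    _ = Real.exp 1 * (s * t) := by ring
    _ ≤ 3 * (s * t) := mul_le_mul_of_nonneg_right h3.le hst0.le
    _ ≤ 3 * Z := by linarith

end

theorem t_LAT : E_LAT := by
  refine ⟨40, by norm_num, ?_⟩
  intro K _ _ D hD h2 hdisc e X F hF A hAF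
  obtain ⟨hA, hAX⟩ := hF A hAF
  obtain ⟨b1, b2, hb, hdet⟩ := T_N4a K D hD h2 hdisc e A hA
  have hnA : 0 < Ideal.absNorm A := Nat.pos_of_ne_zero (Ideal.absNorm_eq_zero_iff.not.2 hA)
  obtain ⟨a, ha⟩ : ∃ a : ℝ, a = (Ideal.absNorm A : ℝ) := ⟨_, rfl⟩
  rw [← ha] at hdet ⊢
  have ha1 : 1 ≤ a := by rw [ha]; exact_mod_cast hnA
  have ha0 : 0 < a := by linarith
  have haX : a ≤ X := by rw [ha]; exact_mod_cast hAX
  have hX0 : (0 : ℝ) < X := by linarith
  have hD0 : (0 : ℝ) < √(D : ℝ) := Real.sqrt_pos.2 (by exact_mod_cast (zero_lt_one.trans hD.1))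
  have hXa : 1 ≤ (X : ℝ) / a := by rw [le_div_iff₀ ha0]; linarith
  obtain ⟨T, hT⟩ : ∃ T : ℝ, T = √(3 * (X / a)) := ⟨_, rfl⟩
  have hT2 : T ^ 2 = 3 * (X / a) := by rw [hT]; exact Real.sq_sqrt (by positivity)
  have hT1 : 1 ≤ T := by
    rw [hT]
    exact Real.one_le_sqrt.2 (by linarith)
  have hd : e.σ b1 * e.τ b2 - e.σ b2 * e.τ b1 ≠ 0 := by
    intro h
    rw [h, abs_zero] at hdet
    have : 0 < √(D : ℝ) / a := by positivity
    linarith
  obtain ⟨φ, hφ⟩ : ∃ φ : ℤ × ℤ → K, φ = fun v => (v.1 : K) * b1 + (v.2 : K) * b2 := ⟨_, rfl⟩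
  have hffσ : ∀ v : ℤ × ℤ, ff (e.σ b1) (e.σ b2) v = e.σ (φ v) := by
    intro v
    rw [hφ]
    simp [ff]
  have hffτ : ∀ v : ℤ × ℤ, ff (e.τ b1) (e.τ b2) v = e.τ (φ v) := by
    intro v
    rw [hφ]
    simp [ff]
  have hMM : ∀ v : ℤ × ℤ, MM (e.σ b1) (e.σ b2) (e.τ b1) (e.τ b2) v = mx e (φ v) := by
    intro v
    rw [MM, mx, hffσ, hffτ]
  have hb' : ∀ x : K, Inv A x ↔ ∃ v : ℤ × ℤ, x = φ v := by
    intro x
    rw [inv_iff A hA, hb]
    constructor
    · rintro ⟨m, n, h⟩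
      exact ⟨(m, n), by rw [hφ]; exact h⟩
    · rintro ⟨v, h⟩
      exact ⟨v.1, v.2, by rw [h, hφ]⟩
  have hone : Inv A (1 : K) := ⟨A, by simp⟩
  obtain ⟨u, hu⟩ := (hb' 1).1 hone
  have hmu : MM (e.σ b1) (e.σ b2) (e.τ b1) (e.τ b2) u = 1 := by
    rw [hMM, ← hu, mx, map_one, map_one, abs_one, max_self]
  have hu0 : u ≠ 0 := by
    intro h
    rw [h, hφ] at hu
    simp at hu
  obtain ⟨v, hv0, hvu, hvpos, hcard⟩ := box_card (e.σ b1) (e.σ b2) (e.τ b1) (e.τ b2) hd T u hu0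
    (by rw [hmu]; exact hT1)
  set S := (box_finite (e.σ b1) (e.σ b2) (e.τ b1) (e.τ b2) hd T).toFinset with hS
  rw [hmu, hMM] at hvu
  rw [hMM] at hvpos
  rw [hMM, hdet] at hcard
  obtain ⟨μ, hμ⟩ : ∃ μ : ℝ, μ = mx e (φ v) := ⟨_, rfl⟩
  rw [← hμ] at hvu hvpos hcard
  refine ⟨φ v, ?_, (hb' _).2 ⟨v, rfl⟩, ?_⟩
  · intro h
    rw [h, mx, map_zero, map_zero, abs_zero, max_self] at hμ
    linarith
  rw [← hμ]
  -- the points
  have hin : ∀ B ∈ F, ∀ x ∈ XAB e A B, |Real.log (e.σ x / e.τ x)| ≤ 1 → x ∈ S.image φ := by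
    intro B hB x hx hl
    obtain ⟨w, hw⟩ := (hb' x).1 ⟨B, hx.2.2⟩
    rw [Finset.mem_image]
    refine ⟨w, ?_, hw.symm⟩
    rw [hS, Set.Finite.mem_toFinset]
    have hn := norm_eq e A B x hx
    rw [← ha] at hn
    have hBX : (Ideal.absNorm B : ℝ) ≤ X := by exact_mod_cast (hF B hB).2
    have hZ : e.σ x * e.τ x ≤ X / a := by
      rw [le_div_iff₀ ha0, hn]
      exact hBX
    have hl' := abs_le.1 hl
    show |ff (e.σ b1) (e.σ b2) w| ≤ T ∧ |ff (e.τ b1) (e.τ b2) w| ≤ T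
    rw [hffσ, hffτ, ← hw, hT]
    refine ⟨small hx.1 hx.2.1 hZ hl'.2, small hx.2.1 hx.1 (by rw [mul_comm]; exact hZ) ?_⟩
    rw [← inv_div, Real.log_inv]
    linarith [hl'.1]
  have hsum : ∑ B ∈ F, KAB e A B ≤ (S.card : ℝ) := by
    calc ∑ B ∈ F, KAB e A B
        ≤ ∑ B ∈ F, (((S.image φ).filter (fun x => x ∈ XAB e A B)).card : ℝ) :=
          Finset.sum_le_sum (fun B hB => KAB_le e A B _ (hin B hB))
      _ = ((F.biUnion (fun B => (S.image φ).filter (fun x => x ∈ XAB e A B))).card : ℝ) := by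
          rw [Finset.card_biUnion]
          · push_cast; rfl
          · intro B _ B' _ hne
            refine Finset.disjoint_left.2 ?_
            intro x hx hx'
            rw [Finset.mem_filter] at hx hx'
            apply hne
            have h3 := hx.2.2.2.symm.trans hx'.2.2.2
            exact FractionalIdeal.coeIdeal_inj.1 h3
      _ ≤ ((S.image φ).card : ℝ) := by
          have : (F.biUnion (fun B => (S.image φ).filter (fun x => x ∈ XAB e A B))) ⊆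
              S.image φ := by
            intro x hx
            rw [Finset.mem_biUnion] at hx
            obtain ⟨B, _, hx⟩ := hx
            exact (Finset.mem_filter.1 hx).1
          exact_mod_cast Finset.card_le_card this
      _ ≤ (S.card : ℝ) := by exact_mod_cast Finset.card_image_le
  refine (hsum.trans hcard).trans ?_
  have hTμ : μ ≤ T := hvu.trans hT1
  have hq1 : 1 ≤ T / μ := by rw [le_div_iff₀ hvpos]; linarith
  have hq2 : μ * T ≤ T ^ 2 := by nlinarith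
  have e1 : (1 + 2 * T / μ) * (1 + 4 * μ * T / (√(D : ℝ) / a)) =
      1 + 2 * (T / μ) + 4 * (μ * T) * (a / √(D : ℝ)) + 8 * T ^ 2 * (a / √(D : ℝ)) := by
    field_simp
    ring
  have e2 : T ^ 2 * (a / √(D : ℝ)) = 3 * (X / √(D : ℝ)) := by
    rw [hT2]
    field_simp
  have e3 : T / μ = √3 * (√(X : ℝ) / (√a * μ)) := by
    rw [hT, Real.sqrt_mul (by norm_num), Real.sqrt_div (by positivity)]
    field_simp
  have h4 : 4 * (μ * T) * (a / √(D : ℝ)) ≤ 4 * T ^ 2 * (a / √(D : ℝ)) := by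
    have : 0 ≤ a / √(D : ℝ) := by positivity
    nlinarith
  have h5 : √3 ≤ 2 := by
    rw [Real.sqrt_le_left (by norm_num)]
    norm_num
  have h6 : 0 ≤ √(X : ℝ) / (√a * μ) := by positivity
  have h7 : 0 ≤ (X : ℝ) / √(D : ℝ) := by positivity
  rw [e1]
  calc 1 + 2 * (T / μ) + 4 * (μ * T) * (a / √(D : ℝ)) + 8 * T ^ 2 * (a / √(D : ℝ))
      ≤ 3 * (T / μ) + 12 * (T ^ 2 * (a / √(D : ℝ))) := by linarith
    _ = 3 * (√3 * (√(X : ℝ) / (√a * μ))) + 36 * (X / √(D : ℝ)) := by rw [e2, e3]; ring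
    _ ≤ 40 * (X / √(D : ℝ)) + 40 * (√(X : ℝ) / (√a * μ)) := by nlinarith

end Pool.Agent.N36.EX

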